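import Mathlib

/-! The entire function `G z = z + E (exp z)` with `G' = exp (exp z)` and its basic estimates. -/

set_option autoImplicit false
open Filter Topology Complex Set Metric

namespace Pool.Agent.MP_c3b115_an.H67

lemma exists_E : ∃ g : ℂ → ℂ, ∀ w, HasDerivAt g (dslope Complex.exp 0 w) w := by
  have h : Differentiable ℂ (dslope Complex.exp 0) := by
    have := (Complex.differentiableOn_dslope (f := Complex.exp) (s := univ) (c := 0)
      (by simp)).2 Complex.differentiable_exp.differentiableOn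
    exact differentiableOn_univ.1 this
  obtain ⟨g, hg⟩ := h.isExactOn_univ
  exact ⟨g, fun w => hg w (mem_univ _)⟩

noncomputable def E : ℂ → ℂ := Classical.choose exists_E

lemma E_deriv (w : ℂ) : HasDerivAt E (dslope Complex.exp 0 w) w := Classical.choose_spec exists_E w

lemma mul_dslope (w : ℂ) : w * dslope Complex.exp 0 w = Complex.exp w - 1 := by
  have := sub_smul_dslope Complex.exp 0 w
  simpa using this

noncomputable def G (z : ℂ) : ℂ := z + E (Complex.exp z)

lemma G_deriv (z : ℂ) : HasDerivAt G (Complex.exp (Complex.exp z)) z := by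
  have h1 := (E_deriv (Complex.exp z)).comp z (Complex.hasDerivAt_exp z)
  have h2 := (hasDerivAt_id z).add h1
  refine HasDerivAt.congr_deriv h2 ?_
  rw [mul_comm, mul_dslope]; ring

lemma G_diff : Differentiable ℂ G := fun z => (G_deriv z).differentiableAt

lemma exists_C0 : ∃ C : ℝ, 0 ≤ C ∧ ∀ w : ℂ, ‖w‖ ≤ 3 → ‖E w‖ ≤ C := by
  have hc : Continuous E := continuous_iff_continuousAt.2 fun w => (E_deriv w).continuousAt
  obtain ⟨C, hC⟩ := (isCompact_closedBall (0 : ℂ) 3).exists_bound_of_continuousOn hc.continuousOn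
  refine ⟨max C 0, le_max_right _ _, fun w hw => (hC w (by simpa using hw)).trans (le_max_left _ _)⟩

noncomputable def C0 : ℝ := Classical.choose exists_C0

lemma C0_nonneg : 0 ≤ C0 := (Classical.choose_spec exists_C0).1

lemma E_le (w : ℂ) (hw : ‖w‖ ≤ 3) : ‖E w‖ ≤ C0 := (Classical.choose_spec exists_C0).2 w hw

lemma norm_exp_le_three {z : ℂ} (hz : z.re ≤ 1) : ‖Complex.exp z‖ ≤ 3 := by
  rw [Complex.norm_exp]
  have := Real.exp_one_lt_d9
  have h2 := Real.exp_le_exp.2 hz
  linarith

lemma G_sub_le {z : ℂ} (hz : z.re ≤ 1) : ‖G z - z‖ ≤ C0 := by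
  have : G z - z = E (Complex.exp z) := by simp [G]
  rw [this]; exact E_le _ (norm_exp_le_three hz)

/-- Along a horizontal ray on which `Re (exp z) ≤ 0` the function `G` moves by at most `3`. -/
lemma G_horiz {x y : ℝ} (hx : 0 ≤ x) (hy : Real.cos y ≤ 0) :
    ‖G (x + y * I) - G (y * I)‖ ≤ 3 := by
  set K : ℂ → ℂ := fun z => G z - Complex.exp (Complex.exp z) * Complex.exp (-z) with hK
  have hKd : ∀ z, HasDerivAt K (Complex.exp (Complex.exp z) * Complex.exp (-z)) z := by
    intro z
    have h1 : HasDerivAt (fun z => Complex.exp (Complex.exp z))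
        (Complex.exp (Complex.exp z) * Complex.exp z) z := (Complex.hasDerivAt_exp z).cexp
    have h2 : HasDerivAt (fun z => Complex.exp (-z)) (Complex.exp (-z) * (-1)) z :=
      (hasDerivAt_neg z).cexp
    have h3 := (G_deriv z).sub (h1.mul h2)
    refine HasDerivAt.congr_deriv h3 ?_
    have : Complex.exp z * Complex.exp (-z) = 1 := by rw [← Complex.exp_add]; simp
    linear_combination (-Complex.exp (Complex.exp z)) * this
  have hnorm : ∀ s : ℝ, ‖Complex.exp (Complex.exp (s + y * I)) * Complex.exp (-(s + y * I))‖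
      ≤ Real.exp (-s) := by
    intro s
    rw [norm_mul, Complex.norm_exp, Complex.norm_exp, Complex.exp_re]
    have h1 : Real.exp (Real.exp (s + y * I : ℂ).re * Real.cos (s + y * I : ℂ).im) ≤ 1 := by
      rw [Real.exp_le_one_iff]
      apply mul_nonpos_of_nonneg_of_nonpos (Real.exp_pos _).le
      simpa using hy
    have h2 : (-(s + y * I : ℂ)).re = -s := by simp
    rw [h2]
    nlinarith [Real.exp_pos (-s)]
  have hf : ∀ s : ℝ, HasDerivAt (fun s : ℝ => K (s + y * I) - K (y * I))
      (Complex.exp (Complex.exp (s + y * I)) * Complex.exp (-(s + y * I))) s := by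
    intro s
    have h1 : HasDerivAt (fun s : ℂ => K (s + y * I))
        (Complex.exp (Complex.exp (s + y * I)) * Complex.exp (-(s + y * I))) (s : ℂ) := by
      have := (hKd (s + y * I)).comp (s : ℂ) ((hasDerivAt_id (s : ℂ)).add_const (y * I))
      exact HasDerivAt.congr_deriv this (mul_one _)
    exact h1.comp_ofReal.sub_const _
  have hB : ∀ s : ℝ, HasDerivAt (fun s : ℝ => 1 - Real.exp (-s)) (Real.exp (-s)) s := by
    intro s
    have := ((hasDerivAt_neg s).exp).const_sub 1
    simpa using this
  have key := image_norm_le_of_norm_deriv_right_le_deriv_boundary (a := 0) (b := x)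
    (f := fun s : ℝ => K (s + y * I) - K (y * I))
    (fun s _ => (hf s).continuousAt.continuousWithinAt)
    (fun s _ => (hf s).hasDerivWithinAt) (B := fun s : ℝ => 1 - Real.exp (-s))
    (by simp) hB (fun s _ => hnorm s) (x := x) ⟨hx, le_rfl⟩
  have e1 : G (x + y * I) - G (y * I) = (K (x + y * I) - K (y * I))
      + Complex.exp (Complex.exp (x + y * I)) * Complex.exp (-(x + y * I))
      - Complex.exp (Complex.exp ((0 : ℝ) + y * I)) * Complex.exp (-((0 : ℝ) + y * I)) := by
    simp only [hK, Complex.ofReal_zero, zero_add]; ring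
  rw [e1]
  have h1 := hnorm x
  have h2 := hnorm 0
  have h3 : Real.exp (-x) ≤ 1 := by rw [Real.exp_le_one_iff]; linarith
  have h4 := Real.exp_pos (-x)
  simp only [neg_zero, Real.exp_zero] at h2
  calc _ ≤ ‖(K (x + y * I) - K (y * I))
      + Complex.exp (Complex.exp (x + y * I)) * Complex.exp (-(x + y * I))‖ +
      ‖Complex.exp (Complex.exp ((0 : ℝ) + y * I)) * Complex.exp (-((0 : ℝ) + y * I))‖ :=
        norm_sub_le _ _
    _ ≤ (‖K (x + y * I) - K (y * I)‖
      + ‖Complex.exp (Complex.exp (x + y * I)) * Complex.exp (-(x + y * I))‖) + 1 := by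
        gcongr; exact norm_add_le _ _
    _ ≤ 3 := by linarith

lemma cos_nonpos_of_re {z : ℂ} (h : (Complex.exp z).re ≤ 0) : Real.cos z.im ≤ 0 := by
  rw [Complex.exp_re] at h
  by_contra hc
  push Not at hc
  have := mul_pos (Real.exp_pos z.re) hc
  linarith

lemma G_good {z : ℂ} (hx : 0 ≤ z.re) (h : (Complex.exp z).re ≤ 0) :
    ‖G z - z.im * I‖ ≤ C0 + 3 := by
  have h1 := G_horiz hx (cos_nonpos_of_re h)
  rw [Complex.re_add_im] at h1
  have h2 := G_sub_le (z := z.im * I) (by simp)
  calc ‖G z - z.im * I‖ = ‖(G z - G (z.im * I)) + (G (z.im * I) - z.im * I)‖ := by ring_nf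
    _ ≤ _ := norm_add_le _ _
    _ ≤ _ := by linarith

/-- The value whose preimages are the poles. -/
noncomputable def b : ℝ := 2 * C0 + 20

lemma re_G_le {z : ℂ} (h : z.re ≤ 1 ∨ (Complex.exp z).re ≤ 0) : (G z).re ≤ C0 + 3 := by
  by_cases hz : z.re ≤ 1
  · have h1 := G_sub_le hz
    have h2 := Complex.re_le_norm (G z - z)
    simp only [Complex.sub_re] at h2
    linarith
  · have h' : (Complex.exp z).re ≤ 0 := h.resolve_left hz
    have h1 := G_good (by linarith [not_le.1 hz]) h'
    have h2 := Complex.re_le_norm (G z - z.im * I)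
    simp only [Complex.sub_re, Complex.mul_re, Complex.ofReal_re, Complex.I_re, mul_zero,
      Complex.ofReal_im, Complex.I_im, mul_one, sub_self, sub_zero] at h2
    linarith

lemma one_le_norm {z : ℂ} (h : z.re ≤ 1 ∨ (Complex.exp z).re ≤ 0) : 1 ≤ ‖G z - b‖ := by
  have h1 := re_G_le h
  have h2 := Complex.abs_re_le_norm (G z - b)
  simp only [Complex.sub_re, Complex.ofReal_re] at h2
  have h3 := C0_nonneg
  have : 1 ≤ |(G z).re - b| := by
    rw [le_abs]; right; unfold b; linarith
  linarith

lemma pole_re {t : ℂ} (ht : G t = b) : 1 < t.re := by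
  by_contra h
  have := one_le_norm (z := t) (Or.inl (not_lt.1 h))
  rw [ht] at this; norm_num at this

lemma pole_exp_re {t : ℂ} (ht : G t = b) : 0 < (Complex.exp t).re := by
  by_contra h
  have := one_le_norm (z := t) (Or.inr (not_lt.1 h))
  rw [ht] at this; norm_num at this

end Pool.Agent.MP_c3b115_an.H67
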