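import Pool.Agent.MP_c3b115_an.H67.Local

/-! The entire function `psi` vanishes identically. -/

set_option autoImplicit false
open Filter Topology Complex Set Metric

namespace Pool.Agent.MP_c3b115_an.H67

noncomputable def MM : ℝ := ∑' t, ‖cc t‖ / ‖t‖ ^ 2

lemma MM_nonneg : 0 ≤ MM := tsum_nonneg fun t => by positivity

lemma psi_le_of_dist {ζ : ℂ} {d R A : ℝ} (hd : 0 < d) (hR : ‖ζ‖ ≤ R)
    (h : ∀ t, G t = b → d ≤ ‖ζ - t‖) (hA : ‖ff ζ‖ ≤ A) :
    ‖psi ζ‖ ≤ MM * (1 + R / d) ^ 2 + A := by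
  have hζ : G ζ ≠ b := fun hc => by
    have := h ζ hc
    rw [sub_self, norm_zero] at this; linarith
  rw [psi_of_ne hζ]
  have h1 := sum_le cc_zero summable_cc hd hR (fun t ht => h t (cc_ne ht))
  calc ‖psi0 ζ‖ ≤ ‖SS ζ‖ + ‖ff ζ‖ := norm_sub_le _ _
    _ ≤ _ := add_le_add h1 hA

lemma exists_circle (z : ℂ) : ∃ R, 0 < R ∧ R ≤ 1 ∧
    ∀ ζ ∈ sphere z R, ∀ t, G t = b → rho z / 6 ≤ ‖ζ - t‖ := by
  have h0 := rho_pos z
  have h8 := rho_le z
  have tri : ∀ ζ t : ℂ, ‖t - z‖ ≤ ‖ζ - t‖ + ‖ζ - z‖ := fun ζ t => by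
    calc ‖t - z‖ = ‖(ζ - z) - (ζ - t)‖ := by ring_nf
      _ ≤ _ := norm_sub_le _ _
      _ = _ := add_comm _ _
  have tri2 : ∀ ζ t : ℂ, ‖ζ - z‖ ≤ ‖ζ - t‖ + ‖t - z‖ := fun ζ t => by
    calc ‖ζ - z‖ = ‖(ζ - t) + (t - z)‖ := by ring_nf
      _ ≤ _ := norm_add_le _ _
  by_cases h : ∃ t₀, G t₀ = b ∧ ‖t₀ - z‖ ≤ rho z / 2
  · obtain ⟨t₀, ht₀, hd₀⟩ := h
    refine ⟨2 * rho z / 3, by linarith, by linarith, fun ζ hζ t ht => ?_⟩
    have h1 : ‖ζ - z‖ = 2 * rho z / 3 := by simpa [dist_eq_norm] using hζ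
    by_cases h2 : ‖t - z‖ ≤ rho z
    · have : t = t₀ := G_loc_inj (z := z) (by rwa [mem_closedBall, dist_eq_norm])
        (by rw [mem_closedBall, dist_eq_norm]; linarith) (ht.trans ht₀.symm)
      rw [this]; linarith [tri2 ζ t₀]
    · linarith [tri ζ t, not_le.1 h2]
  · push Not at h
    refine ⟨rho z / 3, by linarith, by linarith, fun ζ hζ t ht => ?_⟩
    have h1 : ‖ζ - z‖ = rho z / 3 := by simpa [dist_eq_norm] using hζ
    linarith [tri ζ t, h t ht]

lemma psi_crude (z : ℂ) : ‖psi z‖ ≤ (MM * 49 ^ 2 + 200000) * Real.exp (4 * ‖z‖) := by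
  obtain ⟨R, hR0, hR1, hR⟩ := exists_circle z
  have h0 := rho_pos z
  refine Complex.norm_le_of_forall_mem_frontier_norm_le (U := ball z R) isBounded_ball
    psi_diff.diffContOnCl (fun ζ hζ => ?_) (subset_closure (mem_ball_self hR0))
  rw [frontier_ball z hR0.ne'] at hζ
  have h1 : ‖ζ - z‖ = R := by simpa [dist_eq_norm] using hζ
  have h2 : ‖ζ‖ ≤ ‖z‖ + 1 := by
    calc ‖ζ‖ = ‖z + (ζ - z)‖ := by ring_nf
      _ ≤ _ := norm_add_le _ _
      _ ≤ _ := by linarith
  have h3 : rho z / 12 ≤ rho ζ := by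
    unfold rho
    have a1 : Real.exp (-‖z‖ - 1) ≤ Real.exp (-‖ζ‖) := Real.exp_le_exp.2 (by linarith)
    have a2 : Real.exp (-‖z‖) = Real.exp (-‖z‖ - 1) * Real.exp 1 := by
      rw [← Real.exp_add]; ring_nf
    have a3 := Real.exp_one_lt_d9
    have a4 := Real.exp_pos (-‖z‖ - 1)
    nlinarith
  have h4 := ff_le (ζ := ζ) (s := rho z / 12) (by linarith) h3 (fun t ht hb => by
    have a1 := hR ζ hζ t hb
    rw [mem_closedBall, dist_comm, dist_eq_norm] at ht
    linarith)
  have h5 := psi_le_of_dist (d := rho z / 6) (by linarith) h2 (hR ζ hζ) h4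
  set e := Real.exp ‖z‖ with he
  have he1 : ‖z‖ + 1 ≤ e := Real.add_one_le_exp _
  have he2 : 1 ≤ e := by linarith [norm_nonneg z]
  have hrho : rho z = e⁻¹ / 8 := by unfold rho; rw [Real.exp_neg]
  have he4 : Real.exp (4 * ‖z‖) = e ^ 4 := by
    rw [he, ← Real.exp_nat_mul]; norm_num
  have b1 : (‖z‖ + 1) / (rho z / 6) = 48 * (‖z‖ + 1) * e := by rw [hrho]; field_simp; norm_num
  have b2 : 16 / (rho z / 12) ^ 2 = 147456 * e ^ 2 := by rw [hrho]; field_simp; norm_num
  rw [b1, b2] at h5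
  rw [he4]
  have c1 : 1 + 48 * (‖z‖ + 1) * e ≤ 49 * e ^ 2 := by nlinarith
  have c2 : (1 + 48 * (‖z‖ + 1) * e) ^ 2 ≤ (49 * e ^ 2) ^ 2 := by gcongr
  have c3 : e ^ 2 ≤ e ^ 4 := pow_le_pow_right₀ he2 (by norm_num)
  have c4 : 1 ≤ e ^ 4 := one_le_pow₀ he2
  have c5 := mul_le_mul_of_nonneg_left c2 MM_nonneg
  nlinarith

lemma psi_left {z : ℂ} (hz : z.re ≤ 0) : ‖psi z‖ ≤ MM * (1 + ‖z‖) ^ 2 + 3 := by
  have h := psi_le_of_dist (ζ := z) (d := 1) (R := ‖z‖) (A := 3) one_pos le_rfl (fun t ht => by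
    have a1 := pole_re ht
    have a2 := Complex.abs_re_le_norm (z - t)
    rw [Complex.sub_re] at a2
    have a3 := neg_abs_le (z.re - t.re)
    linarith) (ff_le_of (Or.inl (by linarith)) (norm_exp_le_three (by
      have a1 := Complex.re_le_norm (Complex.exp z)
      rw [Complex.norm_exp] at a1
      have a2 : Real.exp z.re ≤ 1 := Real.exp_le_one_iff.2 hz
      linarith)))
  simpa using h

lemma psi_line {z : ℂ} (hz : z.im = Real.pi) : ‖psi z‖ ≤ MM * (1 + ‖z‖) ^ 2 + 3 := by
  have hre : (Complex.exp z).re ≤ 0 := by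
    rw [Complex.exp_re, hz, Real.cos_pi]; linarith [Real.exp_pos z.re]
  have h := psi_le_of_dist (ζ := z) (d := 1) (R := ‖z‖) (A := 3) one_pos le_rfl (fun t ht => by
    have a1 := pole_exp_re ht
    rw [Complex.exp_re] at a1
    have a2 : 0 < Real.cos t.im := (mul_pos_iff_of_pos_left (Real.exp_pos _)).1 a1
    have a3 := Real.abs_cos_sub_cos_le z.im t.im
    rw [hz, Real.cos_pi, ← hz] at a3
    have a4 := Complex.abs_im_le_norm (z - t)
    rw [Complex.sub_im] at a4
    have a5 := neg_abs_le (-1 - Real.cos t.im)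
    linarith) ((ff_le_one hre).trans (by norm_num))
  simpa using h

lemma psi_poly (z : ℂ) : ‖psi z‖ ≤ (50 * MM + 3) * (‖z‖ + 5) ^ 2 := by
  have hM := MM_nonneg
  have hpi := Real.pi_lt_four
  have hpi0 := Real.pi_pos
  have hn := norm_nonneg z
  by_cases hz : z.re ≤ 0
  · have := psi_left hz
    nlinarith [mul_nonneg hM hn, mul_nonneg hM (sq_nonneg ‖z‖)]
  set g : ℂ → ℂ := fun w => psi (w + Real.pi * I) / (w + 1) ^ 2 with hg
  have hnpi : ‖(Real.pi * I : ℂ)‖ ≤ 4 := by
    simp only [norm_mul, Complex.norm_real, Complex.norm_I, mul_one, Real.norm_eq_abs,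
      abs_of_pos hpi0]
    linarith
  have hw1 : ∀ w : ℂ, 0 ≤ w.re → 1 ≤ ‖w + 1‖ := fun w hw => by
    have := Complex.re_le_norm (w + 1)
    simp only [Complex.add_re, Complex.one_re] at this
    linarith
  have hd : DiffContOnCl ℂ g {w | 0 < w.re} := by
    apply DifferentiableOn.diffContOnCl
    rw [closure_setOfPred_lt_re]
    refine DifferentiableOn.div ((psi_diff.comp (by fun_prop)).differentiableOn) (by fun_prop)
      fun w hw => pow_ne_zero _ (norm_pos_iff.1 (by linarith [hw1 w hw]))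
  have hexp : ∃ c < (2 : ℝ), ∃ B, g =O[Bornology.cobounded ℂ ⊓ 𝓟 {w | 0 < w.re}]
      fun w => Real.exp (B * ‖w‖ ^ c) := by
    refine ⟨1, by norm_num, 4, Asymptotics.IsBigO.of_bound
      ((MM * 49 ^ 2 + 200000) * Real.exp 16) ?_⟩
    refine eventually_inf_principal.2 (Eventually.of_forall fun w hw => ?_)
    have a1 := hw1 w (le_of_lt hw)
    have a2 := psi_crude (w + Real.pi * I)
    have a3 : ‖w + Real.pi * I‖ ≤ ‖w‖ + 4 := (norm_add_le _ _).trans (by linarith)
    have a4 : Real.exp (4 * ‖w + Real.pi * I‖) ≤ Real.exp 16 * Real.exp (4 * ‖w‖) := by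
      rw [← Real.exp_add]; exact Real.exp_le_exp.2 (by linarith)
    simp only [hg, norm_div, norm_pow, Real.rpow_one, Real.norm_eq_abs, Real.abs_exp]
    refine le_trans (div_le_self (norm_nonneg _) (by nlinarith)) (a2.trans ?_)
    rw [mul_assoc]
    gcongr
  have hbd : ∀ w : ℂ, 0 ≤ w.re → ‖psi (w + Real.pi * I)‖ ≤ MM * (1 + ‖w + Real.pi * I‖) ^ 2 + 3 →
      ‖g w‖ ≤ 50 * MM + 3 := by
    intro w hw h
    have a1 := hw1 w hw
    have a3 : ‖w + Real.pi * I‖ ≤ ‖w‖ + 4 := (norm_add_le _ _).trans (by linarith)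
    have a4 : 1 + ‖w‖ ^ 2 ≤ ‖w + 1‖ ^ 2 := by
      rw [Complex.sq_norm, Complex.sq_norm, Complex.normSq_apply, Complex.normSq_apply]
      simp only [Complex.add_re, Complex.one_re, Complex.add_im, Complex.one_im, add_zero]
      nlinarith
    have a5 : (1 + ‖w + Real.pi * I‖) ^ 2 ≤ 50 * ‖w + 1‖ ^ 2 := by
      have : (1 + ‖w + Real.pi * I‖) ^ 2 ≤ (‖w‖ + 5) ^ 2 :=
        pow_le_pow_left₀ (by positivity) (by linarith) 2
      nlinarith [sq_nonneg (‖w‖ - 5), norm_nonneg w]
    simp only [hg, norm_div, norm_pow]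
    rw [div_le_iff₀ (by positivity)]
    have a6 := mul_le_mul_of_nonneg_left a5 hM
    nlinarith
  have hre : IsBoundedUnder (· ≤ ·) atTop fun x : ℝ => ‖g x‖ := by
    refine ⟨50 * MM + 3, eventually_map.2 ?_⟩
    filter_upwards [eventually_ge_atTop 0] with x hx
    exact hbd x (by simpa using hx) (psi_line (by simp))
  have him : ∀ x : ℝ, ‖g (x * I)‖ ≤ 50 * MM + 3 := fun x =>
    hbd _ (by simp) (psi_left (by simp))
  have key := PhragmenLindelof.right_half_plane_of_bounded_on_real hd hexp hre him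
    (z := z - Real.pi * I) (by simp; linarith [not_le.1 hz])
  have a1 := hw1 (z - Real.pi * I) (by simp; linarith [not_le.1 hz])
  simp only [hg, norm_div, norm_pow, sub_add_cancel] at key
  rw [div_le_iff₀ (by positivity)] at key
  refine key.trans ?_
  gcongr
  calc ‖z - Real.pi * I + 1‖ ≤ ‖z - Real.pi * I‖ + ‖(1 : ℂ)‖ := norm_add_le _ _
    _ ≤ (‖z‖ + ‖(Real.pi * I : ℂ)‖) + 1 := by gcongr; exacts [norm_sub_le _ _, by simp]
    _ ≤ _ := by linarith

lemma psi_tendsto : Tendsto (fun x : ℝ => psi (-x)) atTop (𝓝 0) := by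
  have h1 : Tendsto (fun x : ℝ => SS (-x)) atTop (𝓝 0) := by
    have := tendsto_tsum_of_dominated_convergence (𝓕 := atTop)
      (f := fun (x : ℝ) (t : ℂ) => cc t / (-x - t) ^ 2) (g := fun _ => 0)
      summable_cc (fun t => ?_) ?_
    · simpa [SS] using this
    · rw [tendsto_zero_iff_norm_tendsto_zero]
      simp only [norm_div, norm_pow]
      refine Tendsto.div_atTop tendsto_const_nhds ((tendsto_pow_atTop two_ne_zero).comp ?_)
      refine tendsto_atTop_mono (fun x => ?_) (tendsto_atTop_add_const_right _ (-‖t‖) tendsto_id)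
      have a1 := Complex.abs_re_le_norm (-(x : ℂ) - t)
      have a2 := neg_abs_le (-(x : ℂ) - t).re
      have a3 := Complex.abs_re_le_norm t
      have a4 := neg_abs_le t.re
      simp only [Complex.sub_re, Complex.neg_re, Complex.ofReal_re, id] at *
      linarith
    · filter_upwards [eventually_ge_atTop 0] with x hx t
      by_cases hc : cc t = 0
      · simp [hc]
      · have a1 := pole_re (cc_ne hc)
        have a2 : 0 < ‖t‖ := by linarith [Complex.re_le_norm t]
        rw [norm_div, norm_pow]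
        refine div_le_div_of_nonneg_left (norm_nonneg _) (by positivity) ?_
        rw [Complex.sq_norm, Complex.sq_norm, Complex.normSq_apply, Complex.normSq_apply]
        simp only [Complex.sub_re, Complex.neg_re, Complex.ofReal_re, Complex.sub_im,
          Complex.neg_im, Complex.ofReal_im]
        nlinarith
  have h2 : Tendsto (fun x : ℝ => ff (-x)) atTop (𝓝 0) := by
    rw [tendsto_zero_iff_norm_tendsto_zero]
    have h3 : Tendsto (fun x : ℝ => 3 / (x - C0) ^ 2) atTop (𝓝 0) :=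
      Tendsto.div_atTop tendsto_const_nhds ((tendsto_pow_atTop two_ne_zero).comp
        (tendsto_atTop_add_const_right _ (-C0) tendsto_id))
    refine squeeze_zero' (Eventually.of_forall fun _ => norm_nonneg _) ?_ h3
    filter_upwards [eventually_gt_atTop C0] with x hx
    have hC := C0_nonneg
    have a1 := G_sub_le (z := -x) (by simp; linarith)
    have a2 := Complex.re_le_norm (G (-x) - -x)
    have a3 := Complex.abs_re_le_norm (G (-x) - b)
    have a4 := neg_abs_le (G (-x) - b).re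
    simp only [Complex.sub_re, Complex.neg_re, Complex.ofReal_re] at a2 a3 a4
    have a5 : x - C0 ≤ ‖G (-x) - b‖ := by unfold b at *; linarith
    have a6 : ‖Complex.exp (Complex.exp (-x))‖ ≤ 3 := norm_exp_le_three (by
      have c1 := Complex.re_le_norm (Complex.exp (-x))
      rw [Complex.norm_exp] at c1
      have c2 : Real.exp (-x : ℂ).re ≤ 1 := Real.exp_le_one_iff.2 (by simp; linarith)
      linarith)
    unfold ff
    rw [norm_div, norm_pow]
    have a7 : 0 < x - C0 := by linarith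
    gcongr
  have h3 := h1.sub h2
  rw [sub_zero] at h3
  refine h3.congr' ?_
  filter_upwards [eventually_ge_atTop 0] with x hx
  rw [psi_of_ne (fun h => by have := pole_re h; simp at this; linarith)]
  rfl

lemma liouville_two {f : ℂ → ℂ} (hf : Differentiable ℂ f) {C : ℝ}
    (hC : ∀ z, ‖f z‖ ≤ C * (‖z‖ + 5) ^ 2) (hl : Tendsto (fun x : ℝ => f (-x)) atTop (𝓝 0))
    (z : ℂ) : f z = 0 := by
  have hC0 : 0 ≤ C := by
    have := (norm_nonneg _).trans (hC 0)
    simp only [norm_zero, zero_add] at this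
    linarith
  have h3 : ∀ c, iteratedDeriv 3 f c = 0 := by
    intro c
    have a1 : ∀ᶠ R : ℝ in atTop, ‖iteratedDeriv 3 f c‖ ≤ 24 * C / R := by
      filter_upwards [eventually_ge_atTop (‖c‖ + 5)] with R hR
      have hR0 : 0 < R := by linarith [norm_nonneg c]
      have := Complex.norm_iteratedDeriv_le_of_forall_mem_sphere_norm_le (f := f) (c := c)
        (C := C * (2 * R) ^ 2) 3 hR0 hf.diffContOnCl (fun ζ hζ => by
          refine (hC ζ).trans ?_
          have h1 : ‖ζ - c‖ = R := by simpa [dist_eq_norm] using hζ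
          have h2 : ‖ζ‖ ≤ ‖c‖ + R := by
            calc ‖ζ‖ = ‖c + (ζ - c)‖ := by ring_nf
              _ ≤ _ := norm_add_le _ _
              _ ≤ _ := by linarith
          gcongr; linarith)
      refine this.trans (le_of_eq ?_)
      simp only [Nat.factorial]
      field_simp
      norm_num
      ring
    have a2 : Tendsto (fun R : ℝ => 24 * C / R) atTop (𝓝 0) :=
      Tendsto.div_atTop tendsto_const_nhds tendsto_id
    exact norm_le_zero_iff.1 (ge_of_tendsto a2 a1)
  have d1 : Differentiable ℂ (deriv f) := hf.deriv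
  have d2 : Differentiable ℂ (deriv (deriv f)) := d1.deriv
  have e3 : ∀ c, deriv (deriv (deriv f)) c = 0 := fun c => by
    have := h3 c
    simpa [iteratedDeriv_succ] using this
  obtain ⟨a, ha⟩ : ∃ a, ∀ c, deriv (deriv f) c = a :=
    ⟨_, fun c => is_const_of_deriv_eq_zero d2 e3 c 0⟩
  obtain ⟨β, hβ⟩ : ∃ β, ∀ c, deriv f c = a * c + β := by
    refine ⟨deriv f 0, fun c => ?_⟩
    have := is_const_of_deriv_eq_zero (f := fun c => deriv f c - a * c) (by fun_prop) (fun c => by
      have := ((d1 c).hasDerivAt.sub ((hasDerivAt_id c).const_mul a)).deriv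
      rw [ha] at this
      refine Eq.trans this ?_
      ring) c 0
    linear_combination this
  obtain ⟨γ, hγ⟩ : ∃ γ, ∀ c, f c = a / 2 * c ^ 2 + β * c + γ := by
    refine ⟨f 0, fun c => ?_⟩
    have := is_const_of_deriv_eq_zero (f := fun c => f c - (a / 2 * c ^ 2 + β * c)) (by fun_prop)
      (fun c => by
        have := ((hf c).hasDerivAt.sub ((((hasDerivAt_id c).pow 2).const_mul (a / 2)).add
          ((hasDerivAt_id c).const_mul β))).deriv
        rw [hβ] at this
        refine Eq.trans this ?_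
        simp only [id]
        ring) c 0
    linear_combination this
  have l1 : Tendsto (fun x : ℝ => f (-((x + 1 : ℝ) : ℂ))) atTop (𝓝 0) :=
    hl.comp (tendsto_atTop_add_const_right _ 1 tendsto_id)
  have l2 : Tendsto (fun x : ℝ => f (-((x + 2 : ℝ) : ℂ))) atTop (𝓝 0) :=
    hl.comp (tendsto_atTop_add_const_right _ 2 tendsto_id)
  have ha0 : a = 0 := by
    have := (l2.sub (l1.const_mul 2)).add hl
    have h : (fun x : ℝ => f (-((x + 2 : ℝ) : ℂ)) - 2 * f (-((x + 1 : ℝ) : ℂ)) + f (-x)) =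
        fun _ => a := by
      ext x; simp only [hγ]; push_cast; ring
    rw [h] at this
    simpa using tendsto_nhds_unique tendsto_const_nhds this
  have hβ0 : β = 0 := by
    have := hl.sub l1
    have h : (fun x : ℝ => f (-x) - f (-((x + 1 : ℝ) : ℂ))) = fun _ => β := by
      ext x; simp only [hγ, ha0]; push_cast; ring
    rw [h] at this
    simpa using tendsto_nhds_unique tendsto_const_nhds this
  have hγ0 : γ = 0 := by
    have h : (fun x : ℝ => f (-x)) = fun _ => γ := by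
      ext x; simp only [hγ, ha0, hβ0]; ring
    rw [h] at hl
    exact tendsto_nhds_unique tendsto_const_nhds hl
  rw [hγ, ha0, hβ0, hγ0]; ring

theorem SS_eq_ff {z : ℂ} (hz : G z ≠ b) : SS z = ff z := by
  have := liouville_two psi_diff psi_poly psi_tendsto z
  rw [psi_of_ne hz] at this
  exact sub_eq_zero.1 this

end Pool.Agent.MP_c3b115_an.H67
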