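import Pool.Agent.MP_c3b115_an.H67.Summ

/-! Local estimates, and the entire function `psi`. -/

set_option autoImplicit false
open Filter Topology Complex Set Metric

namespace Pool.Agent.MP_c3b115_an.H67

noncomputable def rho (z : ℂ) : ℝ := Real.exp (-‖z‖) / 8

lemma rho_pos (z : ℂ) : 0 < rho z := by unfold rho; positivity

lemma rho_le (z : ℂ) : rho z ≤ 1 / 8 := by
  unfold rho
  have : Real.exp (-‖z‖) ≤ 1 := by rw [Real.exp_le_one_iff]; linarith [norm_nonneg z]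
  linarith

lemma deriv_close {z ζ : ℂ} (h : ζ ∈ closedBall z (rho z)) :
    ‖Complex.exp (Complex.exp ζ) - Complex.exp (Complex.exp z)‖ ≤
      ‖Complex.exp (Complex.exp z)‖ / 2 := by
  have h1 : ‖ζ - z‖ ≤ rho z := by simpa [dist_eq_norm] using h
  have h2 := rho_le z
  have h3 : ‖Complex.exp ζ - Complex.exp z‖ ≤ 1 / 4 := by
    have e : Complex.exp ζ - Complex.exp z = Complex.exp z * (Complex.exp (ζ - z) - 1) := by
      rw [mul_sub, ← Complex.exp_add]; simp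
    rw [e, norm_mul, Complex.norm_exp]
    have a1 := Complex.norm_exp_sub_one_le (x := ζ - z) (by linarith)
    have a2 : Real.exp z.re ≤ Real.exp ‖z‖ := Real.exp_le_exp.2 (Complex.re_le_norm z)
    have a3 : Real.exp ‖z‖ * Real.exp (-‖z‖) = 1 := by rw [← Real.exp_add]; simp
    calc Real.exp z.re * ‖Complex.exp (ζ - z) - 1‖ ≤ Real.exp ‖z‖ * (2 * rho z) := by
          gcongr; linarith
      _ = 1 / 4 := by unfold rho; linarith
  have e : Complex.exp (Complex.exp ζ) - Complex.exp (Complex.exp z) =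
      Complex.exp (Complex.exp z) * (Complex.exp (Complex.exp ζ - Complex.exp z) - 1) := by
    rw [mul_sub, ← Complex.exp_add]; simp
  rw [e, norm_mul]
  have a1 := Complex.norm_exp_sub_one_le (x := Complex.exp ζ - Complex.exp z) (by linarith)
  have a2 := norm_nonneg (Complex.exp (Complex.exp z))
  nlinarith

lemma G_expand {z ζ₁ ζ₂ : ℂ} (h₁ : ζ₁ ∈ closedBall z (rho z)) (h₂ : ζ₂ ∈ closedBall z (rho z)) :
    ‖Complex.exp (Complex.exp z)‖ / 2 * ‖ζ₂ - ζ₁‖ ≤ ‖G ζ₂ - G ζ₁‖ := by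
  set A := Complex.exp (Complex.exp z) with hA
  have key := (convex_closedBall z (rho z)).norm_image_sub_le_of_norm_hasDerivWithin_le
    (f := fun ζ => G ζ - A * ζ) (f' := fun ζ => Complex.exp (Complex.exp ζ) - A)
    (C := ‖A‖ / 2) (fun ζ _ => by
      have := (G_deriv ζ).sub ((hasDerivAt_id ζ).const_mul A)
      exact (HasDerivAt.congr_deriv this (by simp)).hasDerivWithinAt)
    (fun ζ hζ => deriv_close hζ) h₁ h₂
  have e : A * (ζ₂ - ζ₁) = (G ζ₂ - G ζ₁) - ((G ζ₂ - A * ζ₂) - (G ζ₁ - A * ζ₁)) := by ring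
  have h3 : ‖A * (ζ₂ - ζ₁)‖ ≤ ‖G ζ₂ - G ζ₁‖ + ‖(G ζ₂ - A * ζ₂) - (G ζ₁ - A * ζ₁)‖ := by
    rw [e]; exact norm_sub_le _ _
  rw [norm_mul] at h3
  linarith

lemma G_loc_inj {z ζ₁ ζ₂ : ℂ} (h₁ : ζ₁ ∈ closedBall z (rho z)) (h₂ : ζ₂ ∈ closedBall z (rho z))
    (h : G ζ₁ = G ζ₂) : ζ₁ = ζ₂ := by
  have h3 := G_expand h₁ h₂
  rw [h, sub_self, norm_zero] at h3
  have h4 : 0 < ‖Complex.exp (Complex.exp z)‖ / 2 := by
    have := norm_pos_iff.2 (Complex.exp_ne_zero (Complex.exp z)); linarith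
  have h5 : ‖ζ₂ - ζ₁‖ ≤ 0 := by
    by_contra hc
    have := mul_pos h4 (not_le.1 hc)
    linarith
  exact (sub_eq_zero.1 (norm_le_zero_iff.1 h5)).symm

lemma eventually_ne (z : ℂ) : ∀ᶠ ζ in 𝓝[≠] z, G ζ ≠ b := by
  by_cases h : G z = b
  · have h1 : closedBall z (rho z) ∈ 𝓝 z := closedBall_mem_nhds z (rho_pos z)
    filter_upwards [mem_nhdsWithin_of_mem_nhds h1, self_mem_nhdsWithin] with ζ h2 h3 h4
    exact h3 (G_loc_inj h2 (mem_closedBall_self (rho_pos z).le) (h4.trans h.symm))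
  · exact mem_nhdsWithin_of_mem_nhds (G_diff.continuous.continuousAt.eventually_ne h)

lemma G_lower {ζ : ℂ} {s : ℝ} (hs : 0 < s) (hs' : s ≤ rho ζ)
    (hno : ∀ t ∈ closedBall ζ s, G t ≠ b) :
    ‖Complex.exp (Complex.exp ζ)‖ * s / 4 ≤ ‖G ζ - b‖ := by
  by_contra hc
  push Not at hc
  have h0 : ζ ∈ closedBall ζ (rho ζ) := mem_closedBall_self (rho_pos ζ).le
  have key := DiffContOnCl.ball_subset_image_closedBall (f := G) (z₀ := ζ) (r := s)
    (ε := ‖Complex.exp (Complex.exp ζ)‖ / 2 * s) G_diff.diffContOnCl hs (fun z hz => by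
      have h1 : ‖z - ζ‖ = s := by simpa [dist_eq_norm] using hz
      have := G_expand h0 (ζ₂ := z) (by rw [mem_closedBall, dist_eq_norm, h1]; exact hs')
      rwa [h1] at this) (by
      have h1 : closedBall ζ (rho ζ) ∈ 𝓝 ζ := closedBall_mem_nhds ζ (rho_pos ζ)
      have h2 : ∀ᶠ z in 𝓝[≠] ζ, G z ≠ G ζ := by
        filter_upwards [mem_nhdsWithin_of_mem_nhds h1, self_mem_nhdsWithin] with z h2 h3 h4
        exact h3 (G_loc_inj h2 h0 h4)
      exact h2.frequently.filter_mono nhdsWithin_le_nhds)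
  have hb : (b : ℂ) ∈ ball (G ζ) (‖Complex.exp (Complex.exp ζ)‖ / 2 * s / 2) := by
    rw [mem_ball, dist_comm, dist_eq_norm]; linarith
  obtain ⟨t, ht, htb⟩ := key hb
  exact hno t ht htb

/-- The meromorphic function without zeros. -/
noncomputable def ff (z : ℂ) : ℂ := Complex.exp (Complex.exp z) / (G z - b) ^ 2

lemma ff_le_of {z : ℂ} {A : ℝ} (h : z.re ≤ 1 ∨ (Complex.exp z).re ≤ 0)
    (hA : ‖Complex.exp (Complex.exp z)‖ ≤ A) : ‖ff z‖ ≤ A := by
  have h1 := one_le_norm h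
  unfold ff
  rw [norm_div, norm_pow]
  refine le_trans (div_le_self (norm_nonneg _) ?_) hA
  nlinarith

lemma ff_le_one {z : ℂ} (h : (Complex.exp z).re ≤ 0) : ‖ff z‖ ≤ 1 :=
  ff_le_of (Or.inr h) (by rw [Complex.norm_exp, Real.exp_le_one_iff]; exact h)

lemma ff_le {ζ : ℂ} {s : ℝ} (hs : 0 < s) (hs' : s ≤ rho ζ)
    (hno : ∀ t ∈ closedBall ζ s, G t ≠ b) : ‖ff ζ‖ ≤ 1 + 16 / s ^ 2 := by
  have h16 : 0 ≤ 16 / s ^ 2 := by positivity
  by_cases h : (Complex.exp ζ).re ≤ 0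
  · linarith [ff_le_one h]
  · have h1 : 1 ≤ ‖Complex.exp (Complex.exp ζ)‖ := by
      rw [Complex.norm_exp]; exact Real.one_le_exp (not_le.1 h).le
    have h2 := G_lower hs hs' hno
    unfold ff
    rw [norm_div, norm_pow]
    set A := ‖Complex.exp (Complex.exp ζ)‖
    have h3 : A / ‖G ζ - b‖ ^ 2 ≤ A / (A * s / 4) ^ 2 := by gcongr
    have h4 : A / (A * s / 4) ^ 2 = 16 / s ^ 2 / A := by field_simp; norm_num
    have h5 : 16 / s ^ 2 / A ≤ 16 / s ^ 2 := div_le_self h16 h1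
    linarith

lemma term_le {c : ℂ → ℂ} (hc0 : c 0 = 0) {ζ : ℂ} {d R : ℝ} (hd : 0 < d) (hR : ‖ζ‖ ≤ R)
    (h : ∀ t, c t ≠ 0 → d ≤ ‖ζ - t‖) (t : ℂ) :
    ‖c t / (ζ - t) ^ 2‖ ≤ ‖c t‖ / ‖t‖ ^ 2 * (1 + R / d) ^ 2 := by
  have hR0 : 0 ≤ R := (norm_nonneg _).trans hR
  by_cases hc : c t = 0
  · simp [hc]
  · have ht : t ≠ 0 := fun h => hc (h ▸ hc0)
    have ht' : 0 < ‖t‖ := norm_pos_iff.2 ht
    have h1 := h t hc
    have h2 : 0 < ‖ζ - t‖ := by linarith
    have h3 : ‖t‖ ≤ (1 + R / d) * ‖ζ - t‖ := by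
      have a1 : ‖t‖ ≤ ‖ζ‖ + ‖ζ - t‖ := by
        calc ‖t‖ = ‖ζ - (ζ - t)‖ := by ring_nf
          _ ≤ _ := norm_sub_le _ _
      have a2 : R ≤ R / d * ‖ζ - t‖ := by
        rw [div_mul_eq_mul_div, le_div_iff₀ hd]; gcongr
      nlinarith
    rw [norm_div, norm_pow, div_mul_eq_mul_div, div_le_div_iff₀ (by positivity) (by positivity),
      mul_assoc, ← mul_pow]
    gcongr

lemma sum_le {c : ℂ → ℂ} (hc0 : c 0 = 0) (hs : Summable fun t => ‖c t‖ / ‖t‖ ^ 2)
    {ζ : ℂ} {d R : ℝ} (hd : 0 < d) (hR : ‖ζ‖ ≤ R) (h : ∀ t, c t ≠ 0 → d ≤ ‖ζ - t‖) :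
    ‖∑' t, c t / (ζ - t) ^ 2‖ ≤ (∑' t, ‖c t‖ / ‖t‖ ^ 2) * (1 + R / d) ^ 2 :=
  tsum_of_norm_bounded (hs.hasSum.mul_right _) (term_le hc0 hd hR h)

lemma summable_term {c : ℂ → ℂ} (hc0 : c 0 = 0) (hs : Summable fun t => ‖c t‖ / ‖t‖ ^ 2)
    {ζ : ℂ} {d : ℝ} (hd : 0 < d) (h : ∀ t, c t ≠ 0 → d ≤ ‖ζ - t‖) :
    Summable fun t => c t / (ζ - t) ^ 2 :=
  Summable.of_norm_bounded (hs.mul_right _) (term_le hc0 hd le_rfl h)

lemma sum_diff {c : ℂ → ℂ} (hc0 : c 0 = 0) (hs : Summable fun t => ‖c t‖ / ‖t‖ ^ 2)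
    {z : ℂ} {d : ℝ} (hd : 0 < d) (h : ∀ t, c t ≠ 0 → 2 * d ≤ ‖z - t‖) :
    DifferentiableOn ℂ (fun ζ => ∑' t, c t / (ζ - t) ^ 2) (ball z d) := by
  have h1 : ∀ ζ ∈ ball z d, ∀ t, c t ≠ 0 → d ≤ ‖ζ - t‖ := by
    intro ζ hζ t ht
    have a1 : ‖ζ - z‖ < d := by simpa [dist_eq_norm] using hζ
    have a2 := h t ht
    have a3 : ‖z - t‖ ≤ ‖ζ - t‖ + ‖ζ - z‖ := by
      calc ‖z - t‖ = ‖(ζ - t) - (ζ - z)‖ := by ring_nf
        _ ≤ _ := norm_sub_le _ _
    linarith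
  refine Complex.differentiableOn_tsum_of_summable_norm
    (hs.mul_right ((1 + (‖z‖ + d) / d) ^ 2)) (fun t => ?_) isOpen_ball (fun t ζ hζ => ?_)
  · by_cases hc : c t = 0
    · simp [hc]
    · refine DifferentiableOn.div (differentiableOn_const _) (by fun_prop) fun ζ hζ => ?_
      have := h1 ζ hζ t hc
      exact pow_ne_zero _ (norm_pos_iff.1 (by linarith))
  · refine term_le hc0 hd ?_ (h1 ζ hζ) t
    have a1 : ‖ζ - z‖ < d := by simpa [dist_eq_norm] using hζ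
    calc ‖ζ‖ = ‖z + (ζ - z)‖ := by ring_nf
      _ ≤ _ := norm_add_le _ _
      _ ≤ _ := by linarith

lemma cc_zero : cc 0 = 0 := by
  by_contra h
  have := pole_re (cc_ne h)
  norm_num at this

/-- The series of squared Cauchy kernels. -/
noncomputable def SS (ζ : ℂ) : ℂ := ∑' t, cc t / (ζ - t) ^ 2

noncomputable def psi0 (ζ : ℂ) : ℂ := SS ζ - ff ζ

lemma exists_dist {z : ℂ} (hz : G z ≠ b) : ∃ d > 0, ∀ t, G t = b → 2 * d ≤ ‖z - t‖ := by
  have h := G_diff.continuous.continuousAt.eventually_ne hz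
  obtain ⟨ε, hε, h2⟩ := Metric.eventually_nhds_iff.1 h
  refine ⟨ε / 2, by linarith, fun t ht => ?_⟩
  by_contra hc
  refine h2 (y := t) ?_ ht
  rw [dist_comm, dist_eq_norm]; linarith [not_le.1 hc]

lemma ff_analytic {z : ℂ} (hz : G z ≠ b) : AnalyticAt ℂ ff z := by
  have hG : AnalyticAt ℂ G z := G_diff.analyticAt z
  unfold ff
  refine AnalyticAt.div (by fun_prop) (by fun_prop) (pow_ne_zero _ (sub_ne_zero.2 hz))

lemma psi0_analytic {z : ℂ} (hz : G z ≠ b) : AnalyticAt ℂ psi0 z := by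
  obtain ⟨d, hd, h⟩ := exists_dist hz
  have h1 := sum_diff cc_zero summable_cc hd (fun t ht => h t (cc_ne ht))
  exact (h1.analyticAt (ball_mem_nhds z hd)).sub (ff_analytic hz)

lemma psi0_removable {z : ℂ} (hz : G z = b) :
    ∃ g : ℂ → ℂ, AnalyticAt ℂ g z ∧ psi0 =ᶠ[𝓝[≠] z] g := by
  classical
  set c' : ℂ → ℂ := fun t => if t = z then 0 else cc t with hc'
  have hc0 : c' 0 = 0 := by simp [hc', cc_zero]
  have hs : Summable fun t => ‖c' t‖ / ‖t‖ ^ 2 := by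
    refine Summable.of_nonneg_of_le (fun t => by positivity) (fun t => ?_) summable_cc
    by_cases h : t = z
    · simp only [hc', h, if_true, norm_zero, zero_div]; positivity
    · simp [hc', h]
  have hsep : ∀ t, c' t ≠ 0 → 2 * (rho z / 2) ≤ ‖z - t‖ := by
    intro t ht
    have h1 : t ≠ z := fun h => by simp [hc', h] at ht
    have h2 : G t = b := cc_ne (by simpa [hc', h1] using ht)
    by_contra hc
    refine h1 (G_loc_inj (z := z) ?_ (mem_closedBall_self (rho_pos z).le) (h2.trans hz.symm))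
    rw [mem_closedBall, dist_comm, dist_eq_norm]; linarith [not_le.1 hc]
  have hd : 0 < rho z / 2 := by linarith [rho_pos z]
  have hS' := (sum_diff hc0 hs hd hsep).analyticAt (ball_mem_nhds z hd)
  set q : ℂ → ℂ := dslope G z with hq
  have hqd : Differentiable ℂ q := differentiableOn_univ.1
    ((Complex.differentiableOn_dslope (f := G) (s := univ) (c := z) (by simp)).2
      G_diff.differentiableOn)
  have hqz : q z = Complex.exp (Complex.exp z) := by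
    rw [hq, dslope_same, (G_deriv z).deriv]
  have hqz0 : q z ≠ 0 := by rw [hqz]; exact Complex.exp_ne_zero _
  have hinv : AnalyticAt ℂ (fun ζ => (q ζ)⁻¹) z := (hqd.analyticAt z).inv hqz0
  set D : ℂ → ℂ := dslope (fun ζ => (q ζ)⁻¹) z with hD
  have hDa : AnalyticAt ℂ D z := by
    obtain ⟨p, hp⟩ := hinv
    exact hp.has_fpower_series_dslope_fslope.analyticAt
  refine ⟨fun ζ => (∑' t, c' t / (ζ - t) ^ 2) + deriv D ζ, hS'.add hDa.deriv, ?_⟩
  filter_upwards [eventually_ne z, self_mem_nhdsWithin] with ζ hζ hζz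
  have hζz' : ζ ≠ z := hζz
  obtain ⟨d, hd, hdist⟩ := exists_dist hζ
  have hsum := summable_term cc_zero summable_cc (ζ := ζ) hd
    (fun t ht => by linarith [hdist t (cc_ne ht)])
  have e1 : SS ζ = cc z / (ζ - z) ^ 2 + ∑' t, c' t / (ζ - t) ^ 2 := by
    unfold SS
    rw [hsum.tsum_eq_add_tsum_ite z]
    congr 1
    refine tsum_congr fun t => ?_
    by_cases h : t = z <;> simp [hc', h]
  have e2 : deriv D ζ = cc z / (ζ - z) ^ 2 - ff ζ := by
    have hev : D =ᶠ[𝓝 ζ] fun η => (G η - b)⁻¹ - cc z * (η - z)⁻¹ := by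
      filter_upwards [G_diff.continuous.continuousAt.eventually_ne hζ,
        eventually_ne_nhds hζz'] with η h1 h2
      have a1 : η - z ≠ 0 := sub_ne_zero.2 h2
      have a2 : G η - b ≠ 0 := sub_ne_zero.2 h1
      rw [hD, dslope_of_ne _ h2, slope_def_field, hqz, hq, dslope_of_ne _ h2, slope_def_field,
        hz, cc_of hz, Complex.exp_neg]
      field_simp
    rw [hev.deriv_eq]
    have a1 : ζ - z ≠ 0 := sub_ne_zero.2 hζz'
    have a2 : G ζ - b ≠ 0 := sub_ne_zero.2 hζ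
    have d1 := ((G_deriv ζ).sub_const (b : ℂ)).inv a2
    have d2 := (((hasDerivAt_id ζ).sub_const z).inv a1).const_mul (cc z)
    have d3 : HasDerivAt (fun η => (G η - b)⁻¹ - cc z * (η - z)⁻¹) _ ζ := d1.sub d2
    rw [d3.deriv]
    unfold ff
    simp only [id]
    ring
  show psi0 ζ = _
  unfold psi0
  rw [e1, e2]; ring

open Classical in
noncomputable def psi (z : ℂ) : ℂ := if G z = b then limUnder (𝓝[≠] z) psi0 else psi0 z

lemma psi_of_ne {z : ℂ} (hz : G z ≠ b) : psi z = psi0 z := by simp [psi, hz]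

lemma psi_diff : Differentiable ℂ psi := by
  intro z
  by_cases hz : G z = b
  · obtain ⟨g, hg, hev⟩ := psi0_removable hz
    have h1 : psi z = g z := by
      simp only [psi, hz, if_true]
      apply Tendsto.limUnder_eq
      exact (hg.continuousAt.tendsto.mono_left nhdsWithin_le_nhds).congr' hev.symm
    have h2 : psi =ᶠ[𝓝[≠] z] g := by
      filter_upwards [hev, eventually_ne z] with ζ h1 h2
      rw [psi_of_ne h2, h1]
    have h3 : psi =ᶠ[𝓝 z] g := by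
      rw [← nhdsNE_sup_pure z]
      exact eventually_sup.2 ⟨h2, by simpa using h1⟩
    exact hg.differentiableAt.congr_of_eventuallyEq h3
  · have h3 : psi =ᶠ[𝓝 z] psi0 := by
      filter_upwards [G_diff.continuous.continuousAt.eventually_ne hz] with ζ h using psi_of_ne h
    exact (psi0_analytic hz).differentiableAt.congr_of_eventuallyEq h3

end Pool.Agent.MP_c3b115_an.H67
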