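import Pool.Agent.MP_c3b115_an.H67.Global

/-! Infinite order and absence of zeros. -/

set_option autoImplicit false
open Filter Topology Complex Set Metric

namespace Pool.Agent.MP_c3b115_an.H67

lemma ff_meromorphic : Meromorphic ff := by
  intro z
  have hG : AnalyticAt ℂ G z := G_diff.analyticAt z
  unfold ff
  refine MeromorphicAt.div (AnalyticAt.meromorphicAt (by fun_prop))
    (AnalyticAt.meromorphicAt (by fun_prop))

lemma inv_ff (z : ℂ) : ff⁻¹ z = (G z - b) ^ 2 * Complex.exp (-Complex.exp z) := by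
  simp only [Pi.inv_apply, ff, inv_div, Complex.exp_neg]
  rw [div_eq_mul_inv]

lemma inv_ff_continuous : Continuous ff⁻¹ := by
  have : ff⁻¹ = fun z => (G z - b) ^ 2 * Complex.exp (-Complex.exp z) := funext inv_ff
  rw [this]
  have := G_diff.continuous
  fun_prop

lemma arc_bound {r θ : ℝ} (hr : 4 ≤ r) (h1 : 7 / 2 / r ≤ θ) (h2 : θ ≤ 4 / r) :
    Real.exp (r / 2) / 2 ≤ Real.posLog ‖ff⁻¹ (circleMap 0 r θ)‖ := by
  have hr0 : 0 < r := by linarith
  have hpi := Real.pi_gt_d2
  have hpi' := Real.pi_lt_d2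
  have hθ0 : 0 ≤ θ := le_trans (by positivity) h1
  have hθ1 : θ ≤ 1 := h2.trans (by rw [div_le_one hr0]; exact hr)
  have h1' : 7 / 2 ≤ r * θ := by rwa [div_le_iff₀ hr0, mul_comm] at h1
  have h2' : r * θ ≤ 4 := by rwa [le_div_iff₀ hr0, mul_comm] at h2
  set z := circleMap 0 r θ with hz
  have hre : z.re = r * Real.cos θ := by simp [hz, circleMap_zero_re]
  have him : z.im = r * Real.sin θ := by simp [hz, circleMap_zero_im]
  have hcos : 1 / 2 ≤ Real.cos θ := by
    have := Real.one_sub_sq_div_two_le_cos (x := θ)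
    nlinarith
  have hs1 : r * Real.sin θ ≤ 4 := by
    have := Real.sin_le hθ0
    nlinarith
  have hs2 : 2 * Real.pi / 3 ≤ r * Real.sin θ := by
    have a1 := Real.mul_le_sin hθ0 (by linarith)
    have a2 : r * (2 / Real.pi * θ) ≤ r * Real.sin θ := by gcongr
    have a3 : 2 * Real.pi / 3 ≤ r * (2 / Real.pi * θ) := by
      rw [show r * (2 / Real.pi * θ) = 2 * (r * θ) / Real.pi by ring, le_div_iff₀ Real.pi_pos]
      nlinarith
    linarith
  have hcy : Real.cos z.im ≤ -(1 / 2) := by
    have a1 : Real.cos (z.im - Real.pi) = -Real.cos z.im := Real.cos_sub_pi _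
    have a2 : |z.im - Real.pi| ≤ Real.pi / 3 := by
      rw [him, abs_le]; constructor <;> linarith
    have a3 := Real.cos_le_cos_of_nonneg_of_le_pi (abs_nonneg _) (by linarith) a2
    rw [Real.cos_pi_div_three, Real.cos_abs] at a3
    linarith
  have hx : Real.exp (r / 2) ≤ Real.exp z.re := Real.exp_le_exp.2 (by rw [hre]; nlinarith)
  have hneg : (Complex.exp z).re ≤ -(Real.exp (r / 2) / 2) := by
    rw [Complex.exp_re]
    nlinarith [Real.exp_pos z.re, Real.exp_pos (r / 2)]
  have hG := one_le_norm (z := z) (Or.inr (by linarith [Real.exp_pos (r / 2)]))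
  have hn : Real.exp (Real.exp (r / 2) / 2) ≤ ‖ff⁻¹ z‖ := by
    rw [inv_ff, norm_mul, norm_pow, Complex.norm_exp]
    have a1 : Real.exp (Real.exp (r / 2) / 2) ≤ Real.exp (-Complex.exp z).re :=
      Real.exp_le_exp.2 (by rw [Complex.neg_re]; linarith)
    have a2 : 1 ≤ ‖G z - b‖ ^ 2 := one_le_pow₀ hG
    nlinarith [Real.exp_pos (-Complex.exp z).re]
  have := Real.log_le_log (Real.exp_pos _) hn
  rw [Real.log_exp] at this
  exact this.trans (le_max_right _ _)

lemma proximity_lower {r : ℝ} (hr : 4 ≤ r) :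
    Real.exp (r / 2) / (32 * r) ≤ ValueDistribution.proximity ff⁻¹ ⊤ r := by
  have hr0 : 0 < r := by linarith
  have hpi := Real.pi_gt_three
  have hpi' := Real.pi_lt_four
  rw [ValueDistribution.proximity_top, Real.circleAverage_def]
  have hc : Continuous fun θ : ℝ => Real.posLog ‖ff⁻¹ (circleMap 0 r θ)‖ :=
    Real.continuous_posLog.comp (inv_ff_continuous.comp (continuous_circleMap 0 r)).norm
  have hab : 7 / 2 / r ≤ 4 / r := by gcongr; norm_num
  have hb : 4 / r ≤ 2 * Real.pi := by
    have : 4 / r ≤ 1 := by rw [div_le_one hr0]; exact hr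
    linarith
  have h1 := intervalIntegral.integral_mono_interval (μ := MeasureTheory.volume)
    (f := fun θ : ℝ => Real.posLog ‖ff⁻¹ (circleMap 0 r θ)‖) (a := 7 / 2 / r) (b := 4 / r)
    (c := 0) (d := 2 * Real.pi) (by positivity) hab hb
    (Eventually.of_forall fun _ => Real.posLog_nonneg) (hc.intervalIntegrable _ _)
  have h2 := intervalIntegral.integral_mono_on (μ := MeasureTheory.volume)
    (f := fun _ : ℝ => Real.exp (r / 2) / 2)
    (g := fun θ : ℝ => Real.posLog ‖ff⁻¹ (circleMap 0 r θ)‖) hab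
    (continuous_const.intervalIntegrable _ _) (hc.intervalIntegrable _ _)
    (fun θ hθ => arc_bound hr hθ.1 hθ.2)
  rw [intervalIntegral.integral_const, smul_eq_mul] at h2
  rw [smul_eq_mul]
  have h3 : (4 / r - 7 / 2 / r) * (Real.exp (r / 2) / 2) = Real.exp (r / 2) / (4 * r) := by
    field_simp; ring
  rw [h3] at h2
  have h4 : (1 / 8 : ℝ) ≤ (2 * Real.pi)⁻¹ := by
    rw [one_div]; exact inv_anti₀ (by positivity) (by linarith)
  calc Real.exp (r / 2) / (32 * r) = 1 / 8 * (Real.exp (r / 2) / (4 * r)) := by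
        field_simp; norm_num
    _ ≤ _ := mul_le_mul h4 (h2.trans h1) (by positivity) (by positivity)

lemma infinite_order (ρ R : ℝ) : ∃ r > R, r ≠ 0 ∧
    r ^ ρ < ValueDistribution.characteristic ff ⊤ r := by
  set K := max |Real.log ‖ff 0‖| |Real.log ‖meromorphicTrailingCoeffAt ff 0‖| with hK
  have t1 := (tendsto_exp_mul_div_rpow_atTop (ρ + 1) (1 / 2) (by norm_num)).eventually_ge_atTop 64
  have t2 := (tendsto_exp_mul_div_rpow_atTop 1 (1 / 2) (by norm_num)).eventually_gt_atTop (64 * K)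
  obtain ⟨r, h1, h2, h3, h4⟩ := (t1.and (t2.and ((eventually_gt_atTop R).and
    (eventually_ge_atTop 4)))).exists
  have hr0 : 0 < r := by linarith
  refine ⟨r, h3, hr0.ne', ?_⟩
  have a1 := ValueDistribution.characteristic_sub_characteristic_inv_le ff_meromorphic (R := r)
  rw [← hK] at a1
  have a2 := neg_abs_le (ValueDistribution.characteristic ff ⊤ r -
    ValueDistribution.characteristic ff⁻¹ ⊤ r)
  have a3 := proximity_lower h4
  have a4 : ValueDistribution.proximity ff⁻¹ ⊤ r ≤ ValueDistribution.characteristic ff⁻¹ ⊤ r := by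
    have := ValueDistribution.logCounting_nonneg (f := ff⁻¹) (e := ⊤) (r := r) (by linarith)
    simp only [ValueDistribution.characteristic, Pi.add_apply]
    linarith
  rw [Real.rpow_add hr0, Real.rpow_one, le_div_iff₀ (by positivity),
    show 1 / 2 * r = r / 2 by ring] at h1
  rw [Real.rpow_one, lt_div_iff₀ hr0, show 1 / 2 * r = r / 2 by ring] at h2
  have a5 : r ^ ρ + K < Real.exp (r / 2) / (32 * r) := by
    rw [lt_div_iff₀ (by positivity)]
    nlinarith
  linarith

lemma ff_no_zero (z : ℂ) : ¬ 0 < meromorphicOrderAt ff z := by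
  intro h
  have h1 := tendsto_zero_of_meromorphicOrderAt_pos h
  have hG := G_diff.continuous
  have h2 : Tendsto (fun ζ => (G ζ - b) ^ 2) (𝓝[≠] z) (𝓝 ((G z - b) ^ 2)) :=
    ((by fun_prop : Continuous fun ζ => (G ζ - b) ^ 2).tendsto z).mono_left nhdsWithin_le_nhds
  have h3 : Tendsto (fun ζ => Complex.exp (Complex.exp ζ)) (𝓝[≠] z)
      (𝓝 (Complex.exp (Complex.exp z))) :=
    ((by fun_prop : Continuous fun ζ => Complex.exp (Complex.exp ζ)).tendsto z).mono_left
      nhdsWithin_le_nhds
  have h4 := h1.mul h2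
  rw [zero_mul] at h4
  have h5 : (fun ζ => ff ζ * (G ζ - b) ^ 2) =ᶠ[𝓝[≠] z] fun ζ => Complex.exp (Complex.exp ζ) := by
    filter_upwards [eventually_ne z] with ζ hζ
    unfold ff
    exact div_mul_cancel₀ _ (pow_ne_zero _ (sub_ne_zero.2 hζ))
  exact Complex.exp_ne_zero _ (tendsto_nhds_unique h3 (h4.congr' h5))

lemma poles_codiscrete : {z : ℂ | G z = b}ᶜ ∈ codiscrete ℂ := by
  rw [mem_codiscrete]
  intro z
  rw [compl_compl, disjoint_principal_right]
  exact eventually_ne z

lemma exists_enum : ∃ t : ℕ → ℂ, Function.Injective t ∧ (∀ n, t n ≠ 0) ∧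
    Tendsto t atTop (cocompact ℂ) ∧ ∀ z, G z = b → z ∈ range t := by
  set p : ℕ → ℂ := fun n => -((n : ℂ) + 1) with hp
  have hpi : Function.Injective p := fun m n h => by simpa [hp] using h
  set T : Set ℂ := {z : ℂ | G z = b} ∪ range p with hT
  have h1 : T.Countable := poles_countable.union (countable_range p)
  have h2 : T.Infinite := (infinite_range_of_injective hpi).mono subset_union_right
  obtain ⟨D⟩ := Set.countable_infinite_iff_nonempty_denumerable.1 ⟨h1, h2⟩
  set e := (Denumerable.eqv T).symm with he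
  have hinj : Function.Injective fun n => (e n : ℂ) := Subtype.val_injective.comp e.injective
  refine ⟨fun n => (e n : ℂ), hinj, fun n => ?_, ?_, fun z hz => ?_⟩
  · show (e n : ℂ) ≠ 0
    rcases (e n).2 with h | ⟨m, hm⟩
    · intro h0
      have := pole_re h
      rw [h0] at this
      norm_num at this
    · rw [← hm]
      exact neg_ne_zero.2 (Nat.cast_add_one_ne_zero m)
  · rw [← Nat.cofinite_eq_atTop, tendsto_cofinite_cocompact_iff]
    intro K hK
    have a1 : (K \ {z : ℂ | G z = b}ᶜ).Finite :=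
      hK.finite_sdiff_of_mem_codiscreteWithin
        (Filter.codiscreteWithin_mono (subset_univ K) poles_codiscrete)
    obtain ⟨R, hR⟩ := hK.isBounded.exists_norm_le
    have a2 : (p '' {n : ℕ | n ≤ ⌈R⌉₊}).Finite := (finite_le_nat _).image p
    refine ((a1.union a2).preimage hinj.injOn).subset fun n hn => ?_
    rcases (e n).2 with h | ⟨m, hm⟩
    · exact Or.inl ⟨hn, not_not.2 h⟩
    · refine Or.inr ⟨m, ?_, hm⟩
      have a3 := hR _ hn
      simp only [← hm, hp, norm_neg] at a3
      have a4 : ‖(m : ℂ) + 1‖ = m + 1 := by exact_mod_cast Complex.norm_natCast (m + 1)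
      have a5 := Nat.le_ceil R
      have : (m : ℝ) ≤ ⌈R⌉₊ := by linarith
      exact_mod_cast this
  · exact ⟨e.symm ⟨z, Or.inl hz⟩, by simp⟩

end Pool.Agent.MP_c3b115_an.H67
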