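import Pool.Agent.MP_c3b115_an.H67.Basic

/-! Location of the poles and summability of the weighted residues. -/

set_option autoImplicit false
open Filter Topology Complex Set Metric

namespace Pool.Agent.MP_c3b115_an.H67

noncomputable def H (w : ℂ) : ℂ := Complex.log w + E w

lemma H_deriv {w : ℂ} (hw : w ∈ Complex.slitPlane) : HasDerivAt H (Complex.exp w / w) w := by
  have h := (Complex.hasDerivAt_log hw).add (E_deriv w)
  refine HasDerivAt.congr_deriv h ?_
  have h0 : w ≠ 0 := Complex.slitPlane_ne_zero hw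
  have := mul_dslope w
  field_simp
  linear_combination this

lemma G_log {w : ℂ} (hw : w ≠ 0) : G (Complex.log w) = H w := by
  simp [G, H, Complex.exp_log hw]

/-- Noshiro-Warschawski type injectivity of `H` on half strips. -/
lemma H_inj {w₁ w₂ : ℂ} (h₁ : 0 < w₁.re) (h₂ : 0 < w₂.re) (hk : ⌊w₁.im⌋ = ⌊w₂.im⌋)
    (hH : H w₁ = H w₂) : w₁ = w₂ := by
  by_contra hne
  set k : ℤ := ⌊w₁.im⌋ with hkdef
  have a1 : (k : ℝ) ≤ w₁.im := Int.floor_le _
  have a2 : w₁.im ≤ k + 1 := (Int.lt_floor_add_one _).le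
  have a3 : (k : ℝ) ≤ w₂.im := by rw [hk]; exact Int.floor_le _
  have a4 : w₂.im ≤ k + 1 := by rw [hk]; exact (Int.lt_floor_add_one _).le
  obtain ⟨θ, hθ⟩ : ∃ θ : ℝ, ∀ u v : ℝ, 0 < u → (k : ℝ) ≤ v → v ≤ k + 1 →
      0 < u * Real.cos (v - θ) + v * Real.sin (v - θ) := by
    have hpi := Real.pi_gt_three
    rcases le_or_gt 0 k with hk0 | hk0
    · refine ⟨k - 1 / 4, fun u v hu hv1 hv2 => ?_⟩
      have hk0' : (0 : ℝ) ≤ k := by exact_mod_cast hk0
      have hc : 0 < Real.cos (v - (k - 1 / 4)) :=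
        Real.cos_pos_of_mem_Ioo ⟨by linarith, by linarith⟩
      have hs : 0 ≤ Real.sin (v - (k - 1 / 4)) :=
        Real.sin_nonneg_of_nonneg_of_le_pi (by linarith) (by linarith)
      have := mul_pos hu hc
      have := mul_nonneg (show 0 ≤ v by linarith) hs
      linarith
    · refine ⟨k + 5 / 4, fun u v hu hv1 hv2 => ?_⟩
      have hk0' : (k : ℝ) + 1 ≤ 0 := by exact_mod_cast hk0
      have hc : 0 < Real.cos (v - (k + 5 / 4)) :=
        Real.cos_pos_of_mem_Ioo ⟨by linarith, by linarith⟩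
      have hs : Real.sin (v - (k + 5 / 4)) ≤ 0 :=
        Real.sin_nonpos_of_nonpos_of_neg_pi_le (by linarith) (by linarith)
      have := mul_pos hu hc
      have := mul_nonneg_of_nonpos_of_nonpos (show v ≤ 0 by linarith) hs
      linarith
  set d : ℂ := w₂ - w₁ with hd
  have hd0 : d ≠ 0 := sub_ne_zero.2 (Ne.symm hne)
  set γ : ℝ → ℂ := fun s => w₁ + s * d with hγ
  have hre : ∀ s ∈ Icc (0 : ℝ) 1, 0 < (γ s).re := by
    intro s hs
    have : (γ s).re = (1 - s) * w₁.re + s * w₂.re := by simp [hγ, hd]; ring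
    rw [this]
    rcases eq_or_lt_of_le hs.1 with h | h
    · rw [← h]; simpa using h₁
    · have := mul_pos h h₂
      have := mul_nonneg (show 0 ≤ 1 - s by linarith [hs.2]) h₁.le
      linarith
  have him : ∀ s ∈ Icc (0 : ℝ) 1, (k : ℝ) ≤ (γ s).im ∧ (γ s).im ≤ k + 1 := by
    intro s hs
    have : (γ s).im = (1 - s) * w₁.im + s * w₂.im := by simp [hγ, hd]; ring
    rw [this]
    have h0 := hs.1
    have h1 : 0 ≤ 1 - s := by linarith [hs.2]
    constructor <;> nlinarith
  set φ : ℝ → ℝ := fun s => (Complex.exp (-(θ * I)) * H (γ s) / d).re with hφ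
  have hφd : ∀ s ∈ Icc (0 : ℝ) 1,
      HasDerivAt φ (Complex.exp (-(θ * I)) * (Complex.exp (γ s) / γ s)).re s := by
    intro s hs
    have hsl : γ s ∈ Complex.slitPlane := Or.inl (hre s hs)
    have h1 : HasDerivAt (fun z : ℂ => w₁ + z * d) d (s : ℂ) := by
      have := ((hasDerivAt_id (s : ℂ)).mul_const d).const_add w₁
      exact HasDerivAt.congr_deriv this (one_mul _)
    have h2 := (((H_deriv hsl).comp (s : ℂ) h1).const_mul (Complex.exp (-(θ * I)))).div_const d
    have h3 : HasDerivAt (fun z : ℂ => Complex.exp (-(θ * I)) * H (w₁ + z * d) / d)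
        (Complex.exp (-(θ * I)) * (Complex.exp (γ s) / γ s)) (s : ℂ) := by
      refine HasDerivAt.congr_deriv h2 ?_
      field_simp
    exact h3.real_of_complex
  have hpos : ∀ s ∈ Icc (0 : ℝ) 1,
      0 < (Complex.exp (-(θ * I)) * (Complex.exp (γ s) / γ s)).re := by
    intro s hs
    have hu := hre s hs
    have hv := him s hs
    have key := hθ _ _ hu hv.1 hv.2
    have h0 : γ s ≠ 0 := fun h => by rw [h] at hu; simp at hu
    have hn : 0 < Complex.normSq (γ s) := Complex.normSq_pos.2 h0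
    have e : (Complex.exp (-(θ * I)) * (Complex.exp (γ s) / γ s)).re =
        Real.exp (γ s).re * ((γ s).re * Real.cos ((γ s).im - θ) +
          (γ s).im * Real.sin ((γ s).im - θ)) / Complex.normSq (γ s) := by
      rw [← mul_div_assoc, ← Complex.exp_add, Complex.div_re, Complex.exp_re, Complex.exp_im]
      have r1 : (-(θ * I : ℂ) + γ s).re = (γ s).re := by simp
      have r2 : (-(θ * I : ℂ) + γ s).im = (γ s).im - θ := by simp; ring
      rw [r1, r2]; ring
    rw [e]
    exact div_pos (mul_pos (Real.exp_pos _) key) hn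
  have hmono : StrictMonoOn φ (Icc 0 1) := by
    apply strictMonoOn_of_deriv_pos (convex_Icc 0 1)
    · exact fun s hs => (hφd s hs).continuousAt.continuousWithinAt
    · intro s hs
      have hs' : s ∈ Icc (0 : ℝ) 1 := interior_subset hs
      rw [(hφd s hs').deriv]; exact hpos s hs'
  have hlt := hmono (a := 0) (b := 1) (by simp) (by simp) zero_lt_one
  have e0 : γ 0 = w₁ := by simp [hγ]
  have e1 : γ 1 = w₂ := by simp [hγ, hd]
  simp only [hφ, e0, e1, hH] at hlt
  exact lt_irrefl _ hlt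

lemma H_horiz {u v : ℝ} (hu : 0 ≤ u) (hv : 1 ≤ |v|) :
    ‖H (u + v * I) - H (v * I)‖ ≤ Real.exp u / |v| := by
  have hv0 : 0 < |v| := by linarith
  have hvne : v ≠ 0 := abs_pos.1 hv0
  have hf : ∀ s : ℝ, HasDerivAt (fun s : ℝ => H (s + v * I) - H (v * I))
      (Complex.exp (s + v * I) / (s + v * I)) s := by
    intro s
    have hsl : (s + v * I : ℂ) ∈ Complex.slitPlane := Or.inr (by simpa using hvne)
    have h1 : HasDerivAt (fun s : ℂ => H (s + v * I))
        (Complex.exp (s + v * I) / (s + v * I)) (s : ℂ) := by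
      have := (H_deriv hsl).comp (s : ℂ) ((hasDerivAt_id (s : ℂ)).add_const (v * I))
      exact HasDerivAt.congr_deriv this (mul_one _)
    exact h1.comp_ofReal.sub_const _
  have hB : ∀ s : ℝ, HasDerivAt (fun s : ℝ => Real.exp s / |v|) (Real.exp s / |v|) s :=
    fun s => (Real.hasDerivAt_exp s).div_const _
  have hnorm : ∀ s : ℝ, ‖Complex.exp (s + v * I) / (s + v * I)‖ ≤ Real.exp s / |v| := by
    intro s
    rw [norm_div, Complex.norm_exp]
    have h1 : (s + v * I : ℂ).re = s := by simp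
    have h2 : |v| ≤ ‖(s + v * I : ℂ)‖ := by
      have := Complex.abs_im_le_norm (s + v * I : ℂ)
      simpa using this
    rw [h1]
    exact div_le_div_of_nonneg_left (Real.exp_pos _).le hv0 h2
  exact image_norm_le_of_norm_deriv_right_le_deriv_boundary (a := 0) (b := u)
    (f := fun s : ℝ => H (s + v * I) - H (v * I))
    (fun s _ => (hf s).continuousAt.continuousWithinAt)
    (fun s _ => (hf s).hasDerivWithinAt) (B := fun s : ℝ => Real.exp s / |v|)
    (by simp) hB (fun s _ => hnorm s) (x := u) ⟨hu, le_rfl⟩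

lemma H_imag {v : ℝ} (hv : 1 ≤ |v|) : ‖H (v * I)‖ ≤ C0 + 7 := by
  have hv0 : 0 < |v| := by linarith
  have hvne : v ≠ 0 := abs_pos.1 hv0
  have hne : (v * I : ℂ) ≠ 0 := by simp [hvne]
  rw [← G_log hne]
  have h1 : 0 ≤ (Complex.log (v * I)).re := by
    rw [Complex.log_re]
    apply Real.log_nonneg
    simpa using hv
  have h2 : (Complex.exp (Complex.log (v * I))).re ≤ 0 := by
    rw [Complex.exp_log hne]; simp
  have h3 := G_good h1 h2
  have h4 : ‖((Complex.log (v * I)).im * I : ℂ)‖ ≤ 4 := by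
    rw [Complex.log_im]
    have := Complex.abs_arg_le_pi (v * I)
    have h5 := Real.pi_lt_four
    simp only [norm_mul, Complex.norm_real, Complex.norm_I, mul_one, Real.norm_eq_abs]
    linarith
  calc ‖G (Complex.log (v * I))‖ = ‖(G (Complex.log (v * I)) - (Complex.log (v * I)).im * I)
        + (Complex.log (v * I)).im * I‖ := by ring_nf
    _ ≤ _ := norm_add_le _ _
    _ ≤ _ := by linarith

lemma exists_branch (t : ℂ) : ∃ m : ℤ, t = Complex.log (Complex.exp t) + m * (2 * Real.pi * I) :=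
  Complex.exp_eq_exp_iff_exists_int.1 (Complex.exp_log (Complex.exp_ne_zero t)).symm

noncomputable def mm (t : ℂ) : ℤ := Classical.choose (exists_branch t)

lemma mm_spec (t : ℂ) : t = Complex.log (Complex.exp t) + mm t * (2 * Real.pi * I) :=
  Classical.choose_spec (exists_branch t)

noncomputable def kk (t : ℂ) : ℤ := ⌊(Complex.exp t).im⌋

lemma G_eq_H (t : ℂ) : G t = H (Complex.exp t) + mm t * (2 * Real.pi * I) := by
  have := mm_spec t
  simp only [G, H]
  linear_combination this

lemma idx_inj {t₁ t₂ : ℂ} (h₁ : G t₁ = b) (h₂ : G t₂ = b) (hm : mm t₁ = mm t₂)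
    (hk : kk t₁ = kk t₂) : t₁ = t₂ := by
  have e : Complex.exp t₁ = Complex.exp t₂ := by
    apply H_inj (pole_exp_re h₁) (pole_exp_re h₂) hk
    have a1 := G_eq_H t₁
    have a2 := G_eq_H t₂
    rw [hm] at a1
    linear_combination a2 - a1 + h₁ - h₂
  rw [mm_spec t₁, mm_spec t₂, e, hm]

lemma mm_le (t : ℂ) : |(mm t : ℝ)| ≤ ‖t‖ := by
  have h1 := congrArg Complex.im (mm_spec t)
  have h2 : t.im = Complex.arg (Complex.exp t) + mm t * (2 * Real.pi) := by
    rw [h1]; simp [Complex.log_im]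
  have h3 := Complex.abs_arg_le_pi (Complex.exp t)
  have h4 := Complex.abs_im_le_norm t
  have hpi := Real.pi_gt_three
  rcases eq_or_ne (mm t) 0 with h | h
  · rw [h]; simp
  · have h5 : (1 : ℝ) ≤ |(mm t : ℝ)| := by exact_mod_cast Int.one_le_abs h
    have h6 : |(mm t : ℝ) * (2 * Real.pi)| ≤ |t.im| + |Complex.arg (Complex.exp t)| := by
      have : (mm t : ℝ) * (2 * Real.pi) = t.im - Complex.arg (Complex.exp t) := by linarith
      rw [this]; exact abs_sub _ _
    rw [abs_mul, abs_of_pos (show 0 < 2 * Real.pi by linarith)] at h6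
    nlinarith

lemma pole_bound {t : ℂ} (ht : G t = b) (hv : 1 ≤ |(Complex.exp t).im|) :
    (1 + |(mm t : ℝ)|) * |(Complex.exp t).im| ≤ Real.exp (Complex.exp t).re := by
  have h1 := H_horiz (pole_exp_re ht).le hv
  rw [Complex.re_add_im] at h1
  have h2 := H_imag hv
  have h3 : H (Complex.exp t) = b - mm t * (2 * Real.pi * I) := by
    have := G_eq_H t
    linear_combination ht - this
  have h4 : ‖H (Complex.exp t)‖ ≤ Real.exp (Complex.exp t).re / |(Complex.exp t).im| + (C0 + 7) := by
    calc ‖H (Complex.exp t)‖ = ‖(H (Complex.exp t) - H ((Complex.exp t).im * I))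
        + H ((Complex.exp t).im * I)‖ := by ring_nf
      _ ≤ _ := norm_add_le _ _
      _ ≤ _ := by linarith
  have h5 := Complex.abs_re_le_norm (H (Complex.exp t))
  have h6 := Complex.abs_im_le_norm (H (Complex.exp t))
  have hpi := Real.pi_gt_three
  have hC := C0_nonneg
  have h7 : (H (Complex.exp t)).re = b := by rw [h3]; simp
  have h8 : (H (Complex.exp t)).im = -(mm t * (2 * Real.pi)) := by rw [h3]; simp
  rw [h7, abs_of_nonneg (by unfold b; linarith)] at h5
  rw [h8, abs_neg, abs_mul, abs_of_pos (show 0 < 2 * Real.pi by linarith)] at h6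
  have h9 : 1 + |(mm t : ℝ)| ≤ Real.exp (Complex.exp t).re / |(Complex.exp t).im| := by
    unfold b at h5
    nlinarith [abs_nonneg (mm t : ℝ)]
  rwa [le_div_iff₀ (by linarith)] at h9

noncomputable def al (k : ℤ) : ℝ :=
  1 / ((|(k : ℝ)| + 2) * (Real.log (|(k : ℝ)| + 2) * √(Real.log (|(k : ℝ)| + 2))))

noncomputable def be (m : ℤ) : ℝ := 1 / ((1 + |(m : ℝ)|) * √(1 + |(m : ℝ)|))

lemma summable_aux : Summable (fun n : ℕ => 1 / ((1 + (n : ℝ)) * √(1 + (n : ℝ)))) := by
  have h := (Real.summable_one_div_nat_rpow (p := 3 / 2)).2 (by norm_num)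
  have h2 := (summable_nat_add_iff 1).2 h
  refine h2.congr fun n => ?_
  have h3 : (0 : ℝ) < 1 + n := by positivity
  rw [Real.sqrt_eq_rpow]
  congr 1
  push_cast
  rw [add_comm (n : ℝ) 1, show (3 / 2 : ℝ) = 1 + 1 / 2 by norm_num, Real.rpow_add h3,
    Real.rpow_one]

lemma summable_be : Summable be := by
  apply Summable.of_nat_of_neg
  · refine summable_aux.congr fun n => ?_
    simp [be]
  · refine summable_aux.congr fun n => ?_
    simp [be]

lemma summable_al_nat : Summable (fun n : ℕ =>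
    1 / (((n : ℝ) + 2) * (Real.log ((n : ℝ) + 2) * √(Real.log ((n : ℝ) + 2))))) := by
  have hl : ∀ n : ℕ, 0 < Real.log ((n : ℝ) + 2) := fun n =>
    Real.log_pos (by have : (0 : ℝ) ≤ n := Nat.cast_nonneg n; linarith)
  rw [← summable_condensed_iff_of_nonneg]
  · refine Summable.of_nonneg_of_le (fun k => ?_) (fun k => ?_) (summable_aux.mul_left 8)
    · have := hl (2 ^ k); positivity
    · have h2 : (1 + (k : ℝ)) / 4 ≤ Real.log (((2 ^ k : ℕ) : ℝ) + 2) := by
        have a1 : Real.log 2 ≤ Real.log (((2 ^ k : ℕ) : ℝ) + 2) :=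
          Real.log_le_log (by norm_num) (by have : (0 : ℝ) ≤ ((2 ^ k : ℕ) : ℝ) := Nat.cast_nonneg _
                                            linarith)
        have a2 : Real.log ((2 : ℝ) ^ k) ≤ Real.log (((2 ^ k : ℕ) : ℝ) + 2) :=
          Real.log_le_log (by positivity) (by push_cast; linarith)
        rw [Real.log_pow] at a2
        have a3 := Real.log_two_gt_d9
        have a4 : (0 : ℝ) ≤ k := Nat.cast_nonneg k
        nlinarith
      have h3 : √(1 + (k : ℝ)) / 2 ≤ √(Real.log (((2 ^ k : ℕ) : ℝ) + 2)) := by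
        have : √(1 + (k : ℝ)) / 2 = √((1 + (k : ℝ)) / 4) := by
          rw [Real.sqrt_div (by positivity), show (4 : ℝ) = 2 ^ 2 by norm_num,
            Real.sqrt_sq (by norm_num)]
        rw [this]; exact Real.sqrt_le_sqrt h2
      have h4 : (2 : ℝ) ^ k ≤ ((2 ^ k : ℕ) : ℝ) + 2 := by push_cast; linarith
      have h5 : 0 < √(1 + (k : ℝ)) := by positivity
      have h6 := (hl (2 ^ k)).le
      calc (2 : ℝ) ^ k * (1 / ((((2 ^ k : ℕ) : ℝ) + 2) * (Real.log (((2 ^ k : ℕ) : ℝ) + 2) *
            √(Real.log (((2 ^ k : ℕ) : ℝ) + 2)))))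
          ≤ (2 : ℝ) ^ k * (1 / ((2 : ℝ) ^ k * ((1 + (k : ℝ)) / 4 * (√(1 + (k : ℝ)) / 2)))) := by
            gcongr
        _ = 8 * (1 / ((1 + (k : ℝ)) * √(1 + (k : ℝ)))) := by field_simp; norm_num
  · intro n; have := hl n; positivity
  · intro m n _ hmn
    have h1 : (m : ℝ) + 2 ≤ n + 2 := by exact_mod_cast Nat.add_le_add_right hmn 2
    have h2 : Real.log ((m : ℝ) + 2) ≤ Real.log ((n : ℝ) + 2) :=
      Real.log_le_log (by positivity) h1
    have := hl m
    have := (hl n).le
    gcongr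

lemma summable_al : Summable al := by
  apply Summable.of_nat_of_neg
  · refine summable_al_nat.congr fun n => ?_
    simp [al]
  · refine summable_al_nat.congr fun n => ?_
    simp [al]

lemma al_nonneg (k : ℤ) : 0 ≤ al k := by
  have : 0 < Real.log (|(k : ℝ)| + 2) := Real.log_pos (by linarith [abs_nonneg (k : ℝ)])
  unfold al; positivity

lemma be_nonneg (m : ℤ) : 0 ≤ be m := by unfold be; positivity

lemma term_bound {t : ℂ} (ht : G t = b) :
    Real.exp (-(Complex.exp t).re) / ‖t‖ ^ 2 ≤ 48 * (be (mm t) * al (kk t)) := by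
  set M : ℝ := 1 + |(mm t : ℝ)| with hM
  set K : ℝ := |(kk t : ℝ)| + 2 with hK
  set L : ℝ := Real.log K with hL
  have hM1 : 1 ≤ M := by rw [hM]; linarith [abs_nonneg (mm t : ℝ)]
  have hK2 : 2 ≤ K := by rw [hK]; linarith [abs_nonneg (kk t : ℝ)]
  have hL0 : 0 < L := Real.log_pos (by linarith)
  have hre := pole_re ht
  have hn1 : t.re ≤ ‖t‖ := Complex.re_le_norm t
  have hMn : M ≤ 2 * ‖t‖ := by have := mm_le t; rw [hM]; linarith
  have hkv : |(kk t : ℝ)| ≤ |(Complex.exp t).im| + 1 := by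
    have a1 : (kk t : ℝ) ≤ (Complex.exp t).im := Int.floor_le _
    have a2 : (Complex.exp t).im < kk t + 1 := Int.lt_floor_add_one _
    have a3 := le_abs_self (Complex.exp t).im
    have a4 := neg_abs_le (Complex.exp t).im
    rw [abs_le]; constructor <;> linarith
  have hsM : 0 < √M := by positivity
  have hsL : 0 < √L := by positivity
  have hrhs : 48 * (be (mm t) * al (kk t)) = 48 / ((M * √M) * (K * (L * √L))) := by
    unfold be al
    rw [← hM, ← hK, ← hL]
    field_simp
  have hn0 : 0 < ‖t‖ := by linarith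
  rw [hrhs, div_le_div_iff₀ (by positivity) (by positivity)]
  have hu := pole_exp_re ht
  by_cases hv : 1 ≤ |(Complex.exp t).im|
  · have hb := pole_bound ht hv
    rw [← hM] at hb
    have hKv : K ≤ 4 * |(Complex.exp t).im| := by rw [hK]; linarith
    have hLn : L ≤ 3 * ‖t‖ := by
      have a1 : |(Complex.exp t).im| ≤ Real.exp t.re := by
        rw [← Complex.norm_exp]; exact Complex.abs_im_le_norm _
      have a2 : K ≤ Real.exp (2 + t.re) := by
        rw [Real.exp_add]
        have a3 : (4 : ℝ) ≤ Real.exp 2 := by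
          have := Real.add_one_le_exp (1 : ℝ)
          rw [show (2 : ℝ) = 1 + 1 by norm_num, Real.exp_add]; nlinarith
        nlinarith [Real.exp_pos t.re]
      have a4 : L ≤ 2 + t.re := by
        rw [hL, Real.log_le_iff_le_exp (by linarith)]; exact a2
      linarith
    have hs : √M * √L ≤ 3 * ‖t‖ := by
      rw [← Real.sqrt_mul (by linarith), Real.sqrt_le_iff]
      refine ⟨by positivity, ?_⟩
      nlinarith
    have e1 : Real.exp (-(Complex.exp t).re) * (M * K) ≤ 4 := by
      rw [Real.exp_neg, inv_mul_le_iff₀ (Real.exp_pos _)]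
      nlinarith
    have e2 : L * (√M * √L) ≤ 9 * ‖t‖ ^ 2 := by nlinarith
    calc Real.exp (-(Complex.exp t).re) * ((M * √M) * (K * (L * √L)))
        = (Real.exp (-(Complex.exp t).re) * (M * K)) * (L * (√M * √L)) := by ring
      _ ≤ 4 * (9 * ‖t‖ ^ 2) := by gcongr
      _ ≤ 48 * ‖t‖ ^ 2 := by nlinarith [sq_nonneg ‖t‖]
  · have hv' : |(Complex.exp t).im| < 1 := not_le.1 hv
    have hk1 : |(kk t : ℝ)| ≤ 1 := by
      have : |kk t| < 2 := by
        have : |(kk t : ℝ)| < 2 := by linarith
        exact_mod_cast this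
      have : |kk t| ≤ 1 := by omega
      exact_mod_cast this
    have hK3 : K ≤ 3 := by rw [hK]; linarith
    have hL2 : L ≤ 2 := by
      have := Real.log_le_sub_one_of_pos (show 0 < K by linarith)
      rw [hL]; linarith
    have hsL2 : √L ≤ 2 := by
      rw [Real.sqrt_le_iff]; exact ⟨by norm_num, by linarith⟩
    have hsM2 : √M ≤ M := by
      rw [Real.sqrt_le_iff]; exact ⟨by linarith, by nlinarith⟩
    have e1 : Real.exp (-(Complex.exp t).re) ≤ 1 := by rw [Real.exp_le_one_iff]; linarith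
    calc Real.exp (-(Complex.exp t).re) * ((M * √M) * (K * (L * √L)))
        ≤ 1 * (((2 * ‖t‖) * (2 * ‖t‖)) * (3 * (2 * 2))) := by
          gcongr
          exact hsM2.trans hMn
      _ = 48 * ‖t‖ ^ 2 := by ring

open Classical in
/-- The coefficient of the double pole at `z` (zero when `z` is no pole). -/
noncomputable def cc (z : ℂ) : ℂ := if G z = b then Complex.exp (-Complex.exp z) else 0

lemma cc_ne {z : ℂ} (h : cc z ≠ 0) : G z = b := by
  by_contra h'; simp [cc, h'] at h

lemma cc_of {z : ℂ} (h : G z = b) : cc z = Complex.exp (-Complex.exp z) := by simp [cc, h]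

lemma idx_injective : Function.Injective (fun t : {t : ℂ | G t = b} => (mm t.1, kk t.1)) := by
  intro t₁ t₂ h
  simp only [Prod.mk.injEq] at h
  exact Subtype.ext (idx_inj t₁.2 t₂.2 h.1 h.2)

lemma poles_countable : {t : ℂ | G t = b}.Countable :=
  Set.countable_coe_iff.1 idx_injective.countable

lemma summable_cc : Summable (fun z : ℂ => ‖cc z‖ / ‖z‖ ^ 2) := by
  have h1 : Summable (fun p : ℤ × ℤ => 48 * (be p.1 * al p.2)) :=
    (summable_be.mul_of_nonneg summable_al be_nonneg al_nonneg).mul_left 48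
  have h2 := h1.comp_injective idx_injective
  have h3 : Summable (fun t : {t : ℂ | G t = b} => ‖cc t.1‖ / ‖t.1‖ ^ 2) := by
    refine Summable.of_nonneg_of_le (fun t => by positivity) (fun t => ?_) h2
    have := term_bound t.2
    rw [cc_of t.2, Complex.norm_exp]
    simpa using this
  refine (Subtype.val_injective.summable_iff (f := fun z : ℂ => ‖cc z‖ / ‖z‖ ^ 2) ?_).1 h3
  intro z hz
  have : ¬ G z = b := fun h => hz ⟨⟨z, h⟩, rfl⟩
  simp [cc, this]

end Pool.Agent.MP_c3b115_an.H67
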